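import Mathlib

set_option autoImplicit false

namespace Pool.Agent.Work.MP_21086e_lc

/-- Stack symbols of a deterministic parser. -/
inductive Sym : Type
  | L | M | A

/-- `acc s w` says that the word `w` (with `true` read as the letter a and `false` as the letter b)
is parsed by the stack `s`, for the grammar `L = a + b M`, `M = a A + b M L`, `A = a`. -/
def acc : List Sym → List Bool → Prop
  | [], [] => True
  | [], _ :: _ => False
  | _ :: _, [] => False
  | Sym.L :: s, true :: w => acc s w
  | Sym.L :: s, false :: w => acc (Sym.M :: s) w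
  | Sym.M :: s, true :: w => acc (Sym.A :: s) w
  | Sym.M :: s, false :: w => acc (Sym.M :: Sym.L :: s) w
  | Sym.A :: s, true :: w => acc s w
  | Sym.A :: _, false :: _ => False

theorem acc_nil_left (w : List Bool) : acc [] w ↔ w = [] := by
  cases w <;> simp [acc]

theorem acc_cons_nil (x : Sym) (s : List Sym) : ¬ acc (x :: s) [] := by
  cases x <;> simp [acc]

theorem acc_append : ∀ (w : List Bool) (s t : List Sym),
    acc (s ++ t) w ↔ ∃ u v, u ++ v = w ∧ acc s u ∧ acc t v := by
  intro w
  induction w with
  | nil =>
    intro s t
    cases s with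
    | nil => simp [acc]
    | cons x s => 
      simp only [List.cons_append, List.append_eq_nil_iff]
      constructor
      · intro h
        exact absurd h (acc_cons_nil _ _)
      · rintro ⟨u, v, ⟨rfl, rfl⟩, h, _⟩
        exact absurd h (acc_cons_nil _ _)
  | cons c w ih =>
    intro s t
    cases s with
    | nil =>
      simp only [List.nil_append]
      constructor
      · intro h
        exact ⟨[], c :: w, rfl, by simp [acc], h⟩
      · rintro ⟨u, v, huv, hu, hv⟩
        rw [acc_nil_left] at hu
        subst hu
        simpa using huv ▸ hv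
    | cons x s =>
      have key : ∀ (s' : List Sym), (∀ u, acc (x :: s) (c :: u) ↔ acc s' u) →
          (acc (x :: s ++ t) (c :: w) ↔ acc (s' ++ t) w) →
          (acc (x :: s ++ t) (c :: w) ↔ ∃ u v, u ++ v = c :: w ∧ acc (x :: s) u ∧ acc t v) := by
        intro s' h1 h2
        rw [h2, ih]
        constructor
        · rintro ⟨u, v, huv, hu, hv⟩
          exact ⟨c :: u, v, by simp [huv], (h1 u).2 hu, hv⟩
        · rintro ⟨u, v, huv, hu, hv⟩
          cases u with
          | nil => exact absurd hu (acc_cons_nil _ _)
          | cons d u =>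
            simp only [List.cons_append, List.cons.injEq] at huv
            obtain ⟨rfl, huv⟩ := huv
            exact ⟨u, v, huv, (h1 u).1 hu, hv⟩
      cases x <;> cases c
      · exact key (Sym.M :: s) (fun u => by simp [acc]) (by simp [acc])
      · exact key s (fun u => by simp [acc]) (by simp [acc])
      · exact key (Sym.M :: Sym.L :: s) (fun u => by simp [acc]) (by simp [acc])
      · exact key (Sym.A :: s) (fun u => by simp [acc]) (by simp [acc])
      · constructor
        · intro h
          simp [acc] at h
        · rintro ⟨u, v, huv, hu, hv⟩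
          cases u with
          | nil => exact absurd hu (acc_cons_nil _ _)
          | cons d u =>
            simp only [List.cons_append, List.cons.injEq] at huv
            obtain ⟨rfl, huv⟩ := huv
            simp [acc] at hu
      · exact key s (fun u => by simp [acc]) (by simp [acc])

/-- The language of a stack is a prefix code. -/
theorem acc_pref : ∀ (w : List Bool) (s : List Sym) (v w' v' : List Bool),
    acc s w → acc s w' → w ++ v = w' ++ v' → w = w' := by
  intro w
  induction w with
  | nil =>
    intro s v w' v' h h' _
    cases s with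
    | nil => exact ((acc_nil_left w').1 h').symm
    | cons x s => exact absurd h (acc_cons_nil _ _)
  | cons c w ih =>
    intro s v w' v' h h' he
    cases s with
    | nil => simp [acc] at h
    | cons x s =>
      cases w' with
      | nil => exact absurd h' (acc_cons_nil _ _)
      | cons d w' =>
        simp only [List.cons_append, List.cons.injEq] at he
        obtain ⟨rfl, he⟩ := he
        congr 1
        cases x <;> cases c <;> simp only [acc] at h h' <;> exact ih _ _ _ _ h h' he

theorem acc_LL (w : List Bool) (s : List Sym) :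
    acc (Sym.L :: Sym.L :: s) w ↔
      acc (Sym.M :: s) w ∨ ∃ v, w = true :: false :: v ∧ acc (Sym.M :: s) v := by
  rcases w with _ | ⟨c, w⟩
  · simp [acc]
  · cases c
    · simp [acc]
    · rcases w with _ | ⟨d, w⟩
      · simp [acc]
      · cases d <;> simp [acc]

/-- Weights of stack symbols modulo 2. -/
def wt : Sym → ℕ
  | Sym.L => 1
  | Sym.M => 2
  | Sym.A => 1

theorem acc_even : ∀ (w : List Bool) (s : List Sym), acc s w →
    w.length % 2 = (s.map wt).sum % 2 := by
  intro w
  induction w with
  | nil =>
    intro s h
    cases s with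
    | nil => rfl
    | cons x s => exact absurd h (acc_cons_nil _ _)
  | cons c w ih =>
    intro s h
    cases s with
    | nil => simp [acc] at h
    | cons x s =>
      cases x <;> cases c <;> simp only [acc] at h <;> first
        | exact h.elim
        | (have := ih _ h
           simp only [List.length_cons, List.map_cons, List.sum_cons, wt] at this ⊢
           omega)

/-- The language `P = {1, ab}`. -/
def P : Language Bool := {w | w = [] ∨ w = [true, false]}

/-- The language `L`. -/
def LL : Language Bool := {w | acc [Sym.L] w}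

/-- The language `M`. -/
def MM : Language Bool := {w | acc [Sym.M] w}

theorem mem_P (w : List Bool) : w ∈ P ↔ w = [] ∨ w = [true, false] := Iff.rfl
theorem mem_LL (w : List Bool) : w ∈ LL ↔ acc [Sym.L] w := Iff.rfl
theorem mem_MM (w : List Bool) : w ∈ MM ↔ acc [Sym.M] w := Iff.rfl

theorem LL_mul_LL : LL * LL = P * MM := by
  ext w
  rw [Language.mem_mul, Language.mem_mul]
  constructor
  · rintro ⟨u, hu, v, hv, rfl⟩
    have h : acc ([Sym.L] ++ [Sym.L]) (u ++ v) := (acc_append _ _ _).2 ⟨u, v, rfl, hu, hv⟩
    rcases (acc_LL _ _).1 h with h | ⟨z, hz, h⟩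
    · exact ⟨[], Or.inl rfl, u ++ v, h, rfl⟩
    · exact ⟨[true, false], Or.inr rfl, z, h, by simp [hz]⟩
  · rintro ⟨p, hp, m, hm, rfl⟩
    have h : acc (Sym.L :: Sym.L :: []) (p ++ m) := by
      rw [acc_LL]
      rcases hp with rfl | rfl
      · exact Or.inl hm
      · exact Or.inr ⟨m, rfl, hm⟩
    obtain ⟨u, v, huv, hu, hv⟩ := (acc_append (p ++ m) [Sym.L] [Sym.L]).1 h
    exact ⟨u, hu, v, hv, huv⟩

/-- The code. -/
def X : Language Bool := MM * P

/-- The language commuting with the code. -/
def Y : Language Bool := MM * LL * P

theorem comm : X * Y = Y * X := by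
  have h1 : X * Y = MM * (P * MM) * LL * P := by
    unfold X Y; simp only [mul_assoc]
  have h2 : Y * X = MM * LL * (P * MM) * P := by
    unfold X Y; simp only [mul_assoc]
  rw [h1, h2, ← LL_mul_LL]
  simp only [mul_assoc]

theorem mem_X {w : List Bool} (h : w ∈ X) : ∃ m p, m ∈ MM ∧ p ∈ P ∧ m ++ p = w := by
  obtain ⟨m, hm, p, hp, rfl⟩ := Language.mem_mul.1 h
  exact ⟨m, p, hm, hp, rfl⟩

theorem MM_length {m : List Bool} (h : m ∈ MM) : 2 ≤ m.length := by
  rw [mem_MM] at h
  rcases m with _ | ⟨c, m⟩
  · exact absurd h (acc_cons_nil _ _)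
  · rcases m with _ | ⟨d, m⟩
    · cases c <;> simp [acc] at h
    · simp

theorem MM_not_ab (v : List Bool) : true :: false :: v ∉ MM := by
  rw [mem_MM]; simp [acc]

theorem key : ∀ (l₁ l₂ : List (List Bool)) (p p' : List Bool), p ∈ P → p' ∈ P →
    (∀ w ∈ l₁, w ∈ X) → (∀ w ∈ l₂, w ∈ X) →
    p ++ l₁.flatten = p' ++ l₂.flatten → p = p' ∧ l₁ = l₂ := by
  have aux : ∀ (l : List (List Bool)) (p p' : List Bool) (x : List Bool), p ∈ P → p' ∈ P →
      x ∈ X → p ≠ p' ++ (x :: l).flatten := by
    intro l p p' x hp hp' hx he
    obtain ⟨m, q, hm, hq, rfl⟩ := mem_X hx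
    have hml := MM_length hm
    rcases hp with rfl | rfl
    · have := congrArg List.length he
      simp only [List.flatten_cons, List.length_append, List.length_nil] at this
      omega
    · rcases hp' with rfl | rfl
      · rcases m with _ | ⟨c, m⟩
        · simp at hml
        · rcases m with _ | ⟨d, m⟩
          · simp at hml
          · simp only [List.flatten_cons, List.cons_append, List.nil_append,
              List.cons.injEq] at he
            obtain ⟨rfl, rfl, _⟩ := he
            exact MM_not_ab _ hm
      · have := congrArg List.length he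
        simp only [List.flatten_cons, List.length_append, List.length_nil, List.length_cons] at this
        omega
  intro l₁
  induction l₁ with
  | nil =>
    intro l₂ p p' hp hp' _ h2 he
    cases l₂ with
    | nil => exact ⟨by simpa using he, rfl⟩
    | cons x l =>
      exact absurd (by simpa using he) (aux l p p' x hp hp' (h2 x (by simp)))
  | cons x l ih =>
    intro l₂ p p' hp hp' h1 h2 he
    cases l₂ with
    | nil =>
      exact absurd (by simpa using he.symm) (aux l p' p x hp' hp (h1 x (by simp)))
    | cons x' l' =>
      obtain ⟨m, q, hm, hq, hx⟩ := mem_X (h1 x (by simp))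
      obtain ⟨m', q', hm', hq', hx'⟩ := mem_X (h2 x' (by simp))
      have e1 : (p ++ m) ++ (q ++ l.flatten) = (p' ++ m') ++ (q' ++ l'.flatten) := by
        have : p ++ (x ++ l.flatten) = p' ++ (x' ++ l'.flatten) := by
          simpa using he
        rw [← hx, ← hx'] at this
        simpa only [List.append_assoc] using this
      have a1 : acc [Sym.L, Sym.L] (p ++ m) := by
        rw [acc_LL]
        rcases hp with rfl | rfl
        · exact Or.inl hm
        · exact Or.inr ⟨m, rfl, hm⟩
      have a2 : acc [Sym.L, Sym.L] (p' ++ m') := by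
        rw [acc_LL]
        rcases hp' with rfl | rfl
        · exact Or.inl hm'
        · exact Or.inr ⟨m', rfl, hm'⟩
      have e2 : p ++ m = p' ++ m' := acc_pref _ _ _ _ _ a1 a2 e1
      have e3 : q ++ l.flatten = q' ++ l'.flatten := by
        rw [e2] at e1
        exact List.append_cancel_left e1
      obtain ⟨hqq, hll⟩ := ih l' q q' hq hq' (fun w hw => h1 w (by simp [hw]))
        (fun w hw => h2 w (by simp [hw])) e3
      have hpm : p = p' ∧ m = m' := by
        rcases hp with rfl | rfl <;> rcases hp' with rfl | rfl
        · exact ⟨rfl, by simpa using e2⟩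
        · exfalso
          simp only [List.nil_append, List.cons_append] at e2
          rw [e2] at hm
          exact MM_not_ab _ hm
        · exfalso
          simp only [List.nil_append, List.cons_append] at e2
          rw [← e2] at hm'
          exact MM_not_ab _ hm'
        · exact ⟨rfl, by simpa using e2⟩
      refine ⟨hpm.1, ?_⟩
      rw [← hx, ← hx', hpm.2, hqq, hll]

theorem X_even {w : List Bool} (h : w ∈ X) : w.length % 2 = 0 := by
  obtain ⟨m, p, hm, hp, rfl⟩ := mem_X h
  have := acc_even _ _ hm
  simp [wt] at this
  rcases hp with rfl | rfl <;> simp <;> omega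

theorem X_pow_even : ∀ (i : ℕ) {w : List Bool}, w ∈ X ^ i → w.length % 2 = 0 := by
  intro i
  induction i with
  | zero =>
    intro w h
    rw [pow_zero, Language.mem_one] at h
    simp [h]
  | succ i ih =>
    intro w h
    rw [pow_succ] at h
    obtain ⟨u, hu, v, hv, rfl⟩ := Language.mem_mul.1 h
    have := ih hu
    have := X_even hv
    simp
    omega

theorem pow_length {R : Language Bool} (hR : ([] : List Bool) ∉ R) :
    ∀ (i : ℕ) {w : List Bool}, w ∈ R ^ i → i ≤ w.length := by
  intro i
  induction i with
  | zero => intro w _; simp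
  | succ i ih =>
    intro w h
    rw [pow_succ] at h
    obtain ⟨u, hu, v, hv, rfl⟩ := Language.mem_mul.1 h
    have h1 := ih hu
    have h2 : v ≠ [] := fun h => hR (h ▸ hv)
    have h3 : 0 < v.length := List.length_pos_iff.2 h2
    simp
    omega

theorem mem_X_iff (w : List Bool) :
    w ∈ X ↔ acc [Sym.M] w ∨ ∃ m, w = m ++ [true, false] ∧ acc [Sym.M] m := by
  constructor
  · intro h
    obtain ⟨m, p, hm, hp, rfl⟩ := mem_X h
    rcases hp with rfl | rfl
    · left; rw [List.append_nil]; exact hm
    · right; exact ⟨m, rfl, hm⟩
  · rintro (h | ⟨m, rfl, h⟩)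
    · exact Language.mem_mul.2 ⟨w, h, [], Or.inl rfl, by simp⟩
    · exact Language.mem_mul.2 ⟨m, h, [true, false], Or.inr rfl, rfl⟩

theorem aa_mem : [true, true] ∈ X := by
  rw [mem_X_iff]; left; simp [acc]

theorem aaab_mem : [true, true, true, false] ∈ X := by
  rw [mem_X_iff]; right; exact ⟨[true, true], rfl, by simp [acc]⟩

theorem aaba_not : [true, true, false, true] ∉ X := by
  rw [mem_X_iff]
  rintro (h | ⟨m, hm, h⟩)
  · simp [acc] at h
  · have := congrArg List.getLast? hm
    simp at this

theorem aaaa_not : [true, true, true, true] ∉ X := by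
  rw [mem_X_iff]
  rintro (h | ⟨m, hm, h⟩)
  · simp [acc] at h
  · have := congrArg List.getLast? hm
    simp at this

theorem aaa_mem : [true, true, true] ∈ Y := by
  refine Language.mem_mul.2 ⟨[true, true, true], ?_, [], Or.inl rfl, by simp⟩
  refine Language.mem_mul.2 ⟨[true, true], ?_, [true], ?_, rfl⟩
  · rw [mem_MM]; simp [acc]
  · rw [mem_LL]; simp [acc]

theorem nil_not_mem_X : ([] : List Bool) ∉ X := by
  intro h
  obtain ⟨m, p, hm, _, he⟩ := mem_X h
  have := MM_length hm
  have := congrArg List.length he
  simp only [List.length_append, List.length_nil] at this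
  omega

/-- Unique factorization of `X`. -/
theorem code_X (l₁ l₂ : List (List Bool)) (h1 : ∀ w ∈ l₁, w ∈ X) (h2 : ∀ w ∈ l₂, w ∈ X)
    (he : l₁.flatten = l₂.flatten) : l₁ = l₂ :=
  (key l₁ l₂ [] [] (Or.inl rfl) (Or.inl rfl) h1 h2 (by simpa using he)).2

/-- `X` is not a power of a language of which `Y` contains powers only. -/
theorem no_root (R : Language Bool) (n : ℕ) (hX : X = R ^ n)
    (hY : ∃ i, [true, true, true] ∈ R ^ i) : False := by
  have hn0 : n ≠ 0 := by
    rintro rfl
    have := aa_mem
    rw [hX, pow_zero, Language.mem_one] at this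
    simp at this
  have hR : ([] : List Bool) ∉ R := by
    intro h
    have h1 : ∀ k : ℕ, ([] : List Bool) ∈ R ^ k := by
      intro k
      induction k with
      | zero => rw [pow_zero, Language.mem_one]
      | succ k ih =>
        rw [pow_succ]
        exact Language.mem_mul.2 ⟨[], ih, [], h, rfl⟩
    exact nil_not_mem_X (hX ▸ h1 n)
  have haa := aa_mem
  rw [hX] at haa
  have hn : n ≤ 2 := pow_length hR n haa
  interval_cases n
  · exact hn0 rfl
  · rw [pow_one] at hX
    obtain ⟨i, hi⟩ := hY
    rw [← hX] at hi
    have := X_pow_even i hi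
    simp at this
  · have ha : [true] ∈ R := by
      rw [pow_two] at haa
      obtain ⟨u, hu, v, hv, he⟩ := Language.mem_mul.1 haa
      have hu' : u ≠ [] := fun h => hR (h ▸ hu)
      have hv' : v ≠ [] := fun h => hR (h ▸ hv)
      rcases u with _ | ⟨c, u⟩
      · exact absurd rfl hu'
      · rcases u with _ | ⟨d, u⟩
        · simp at he
          rw [he.1] at hu
          exact hu
        · exfalso
          have := congrArg List.length he
          have h3 : 0 < v.length := List.length_pos_iff.2 hv'
          simp only [List.length_append, List.length_cons, List.length_nil] at this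
          omega
    have hb := aaab_mem
    rw [hX, pow_two] at hb
    obtain ⟨u, hu, v, hv, he⟩ := Language.mem_mul.1 hb
    have hu' : u ≠ [] := fun h => hR (h ▸ hu)
    have hv' : v ≠ [] := fun h => hR (h ▸ hv)
    have hl := congrArg List.length he
    have hl1 : 0 < u.length := List.length_pos_iff.2 hu'
    have hl2 : 0 < v.length := List.length_pos_iff.2 hv'
    rcases u with _ | ⟨c1, u⟩
    · exact absurd rfl hu'
    rcases u with _ | ⟨c2, u⟩
    · -- u = [a]
      simp only [List.cons_append, List.nil_append, List.cons.injEq] at he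
      obtain ⟨rfl, rfl⟩ := he
      apply aaba_not
      rw [hX, pow_two]
      exact Language.mem_mul.2 ⟨_, hv, _, ha, rfl⟩
    rcases u with _ | ⟨c3, u⟩
    · -- u = [a, a]
      simp only [List.cons_append, List.nil_append, List.cons.injEq] at he
      obtain ⟨rfl, rfl, rfl⟩ := he
      have h3 : [true, true, true] ∈ X := by
        rw [hX, pow_two]
        exact Language.mem_mul.2 ⟨_, hu, _, ha, rfl⟩
      have := X_even h3
      simp at this
    rcases u with _ | ⟨c4, u⟩
    · -- u = [a, a, a]
      simp only [List.cons_append, List.nil_append, List.cons.injEq] at he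
      obtain ⟨rfl, rfl, rfl, rfl⟩ := he
      apply aaaa_not
      rw [hX, pow_two]
      exact Language.mem_mul.2 ⟨_, hu, _, ha, rfl⟩
    · exfalso
      simp only [List.length_append, List.length_cons, List.length_nil] at hl hl2
      omega

end Pool.Agent.Work.MP_21086e_lc
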